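import Pool.Agent.H449R2.Fl.CertAux
import Pool.Agent.H449R2.Fl.Count5

/-! Polynomials in the codegrees as objectives for the order-6 flag bound, and `K_5^3`. -/

set_option autoImplicit false
set_option maxRecDepth 100000
open Finset

namespace Pool.Agent.R470.Tu
open Pool.Agent.H449R2.Fl

/-- the objective: a function of the edges `abc`, `abd`, `abx`, `aby` -/
def LU (κ L s i j : ℕ) : ℕ :=
  Nat.mul κ (fld 8 255 L (Nat.add (Nat.land s 3) (Nat.add (Nat.mul 4 (Nat.land i 1)) (Nat.mul 8 (Nat.land j 1)))))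

section
variable {V : Type} {e : V → V → V → ℕ}

/-- the codegree -/
def cdg [Fintype V] (e : V → V → V → ℕ) (a b : V) : ℤ := ∑ c, (e a b c : ℤ)

theorem sg_land (he : Pat e) (a b c d : V) : Nat.land (sg e a b c d) 3 = e a b c + 2 * e a b d := by
  have h1 := he.le1 a b c
  have h2 := he.le1 a b d
  have h3 : Nat.land (sg e a b c d) 3 = sg e a b c d % 4 := Nat.and_two_pow_sub_one_eq_mod _ 2
  rw [h3]
  unfold sg
  simp only [Nat.add_eq, Nat.mul_eq]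
  omega

theorem ta_land (he : Pat e) (a b c d x : V) : Nat.land (ta e a b c d x) 1 = e a b x := by
  have h1 := he.le1 a b x
  have h3 : Nat.land (ta e a b c d x) 1 = ta e a b c d x % 2 := Nat.and_two_pow_sub_one_eq_mod _ 1
  rw [h3]
  unfold ta
  simp only [Nat.add_eq, Nat.mul_eq]
  omega

theorem LU_eq (he : Pat e) (κ L : ℕ) (c0 c1 c2 c3 c4 : ℤ)
    (hL : ∀ u < 2, ∀ v < 2, ∀ w < 2, ∀ z < 2,
      ((fld 8 255 L (Nat.add (u + 2 * v) (Nat.add (Nat.mul 4 w) (Nat.mul 8 z))) : ℕ) : ℤ) =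
        c0 + c1 * (u : ℤ) + c2 * ((u : ℤ) * v) + c3 * ((u : ℤ) * v * w) + c4 * ((u : ℤ) * v * w * z))
    (a b c d x y : V) :
    (LU κ L (sg e a b c d) (ta e a b c d x) (ta e a b c d y) : ℤ) =
      κ * (c0 + c1 * (e a b c : ℤ) + c2 * ((e a b c : ℤ) * e a b d) +
        c3 * ((e a b c : ℤ) * e a b d * e a b x) + c4 * ((e a b c : ℤ) * e a b d * e a b x * e a b y)) := by
  unfold LU
  rw [sg_land he, ta_land he, ta_land he, Nat.mul_eq]
  push_cast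
  rw [hL _ (Nat.lt_succ_of_le (he.le1 _ _ _)) _ (Nat.lt_succ_of_le (he.le1 _ _ _)) _
    (Nat.lt_succ_of_le (he.le1 _ _ _)) _ (Nat.lt_succ_of_le (he.le1 _ _ _))]

variable [Fintype V]

theorem mom_sum (κ : ℕ) (c0 c1 c2 c3 c4 : ℤ) :
    ∑ a : V, ∑ b : V, ∑ c : V, ∑ d : V, ∑ x : V, ∑ y : V,
      (κ : ℤ) * (c0 + c1 * (e a b c : ℤ) + c2 * ((e a b c : ℤ) * e a b d) +
        c3 * ((e a b c : ℤ) * e a b d * e a b x) + c4 * ((e a b c : ℤ) * e a b d * e a b x * e a b y)) =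
    κ * (c0 * (Fintype.card V : ℤ) ^ 6 + ∑ a, ∑ b,
      (c1 * (Fintype.card V : ℤ) ^ 3 * cdg e a b + c2 * (Fintype.card V : ℤ) ^ 2 * cdg e a b ^ 2 +
        c3 * (Fintype.card V : ℤ) * cdg e a b ^ 3 + c4 * cdg e a b ^ 4)) := by
  set n : ℤ := (Fintype.card V : ℤ) with hn
  have key : ∀ a b : V, ∑ c : V, ∑ d : V, ∑ x : V, ∑ y : V,
      (κ : ℤ) * (c0 + c1 * (e a b c : ℤ) + c2 * ((e a b c : ℤ) * e a b d) +
        c3 * ((e a b c : ℤ) * e a b d * e a b x) + c4 * ((e a b c : ℤ) * e a b d * e a b x * e a b y)) =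
      κ * (c0 * n ^ 4) + κ * (c1 * n ^ 3 * cdg e a b + c2 * n ^ 2 * cdg e a b ^ 2 +
        c3 * n * cdg e a b ^ 3 + c4 * cdg e a b ^ 4) := by
    intro a b
    simp only [mul_add, sum_add_distrib, ← mul_sum, ← sum_mul, sum_const, card_univ, nsmul_eq_mul,
      ← hn]
    unfold cdg
    ring
  have h2 : ∑ a : V, ∑ b : V, ∑ c : V, ∑ d : V, ∑ x : V, ∑ y : V,
      (κ : ℤ) * (c0 + c1 * (e a b c : ℤ) + c2 * ((e a b c : ℤ) * e a b d) +
        c3 * ((e a b c : ℤ) * e a b d * e a b x) + c4 * ((e a b c : ℤ) * e a b d * e a b x * e a b y)) =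
      ∑ a : V, ∑ b : V, (κ * (c0 * n ^ 4) + κ * (c1 * n ^ 3 * cdg e a b + c2 * n ^ 2 * cdg e a b ^ 2 +
        c3 * n * cdg e a b ^ 3 + c4 * cdg e a b ^ 4)) :=
    sum_congr rfl fun a _ => sum_congr rfl fun b _ => key a b
  rw [h2]
  simp only [sum_add_distrib, sum_const, card_univ, nsmul_eq_mul, ← hn, ← mul_sum]
  ring

theorem LU_sum (he : Pat e) (κ L : ℕ) (c0 c1 c2 c3 c4 : ℤ)
    (hL : ∀ u < 2, ∀ v < 2, ∀ w < 2, ∀ z < 2,
      ((fld 8 255 L (Nat.add (u + 2 * v) (Nat.add (Nat.mul 4 w) (Nat.mul 8 z))) : ℕ) : ℤ) =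
        c0 + c1 * (u : ℤ) + c2 * ((u : ℤ) * v) + c3 * ((u : ℤ) * v * w) + c4 * ((u : ℤ) * v * w * z)) :
    ∑ a, ∑ b, ∑ c, ∑ d, ∑ x, ∑ y,
      (LU κ L (sg e a b c d) (ta e a b c d x) (ta e a b c d y) : ℤ) =
    κ * (c0 * (Fintype.card V : ℤ) ^ 6 + ∑ a, ∑ b,
      (c1 * (Fintype.card V : ℤ) ^ 3 * cdg e a b + c2 * (Fintype.card V : ℤ) ^ 2 * cdg e a b ^ 2 +
        c3 * (Fintype.card V : ℤ) * cdg e a b ^ 3 + c4 * cdg e a b ^ 4)) := by
  rw [← mom_sum]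
  exact sum_congr rfl fun a _ => sum_congr rfl fun b _ => sum_congr rfl fun c _ =>
    sum_congr rfl fun d _ => sum_congr rfl fun x _ => sum_congr rfl fun y _ =>
      LU_eq he κ L c0 c1 c2 c3 c4 hL a b c d x y

end

/-- some five vertices span a complete 3-graph -/
def hasK5 (m : ℕ) : Bool :=
  or (and (Nat.beq (sg (pe m) 0 1 2 3) 15) (Nat.beq (ta (pe m) 0 1 2 3 4) 63))
  (or (and (Nat.beq (sg (pe m) 0 1 2 3) 15) (Nat.beq (ta (pe m) 0 1 2 3 5) 63))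
  (or (and (Nat.beq (sg (pe m) 0 1 2 4) 15) (Nat.beq (ta (pe m) 0 1 2 4 5) 63))
  (or (and (Nat.beq (sg (pe m) 0 1 3 4) 15) (Nat.beq (ta (pe m) 0 1 3 4 5) 63))
  (or (and (Nat.beq (sg (pe m) 0 2 3 4) 15) (Nat.beq (ta (pe m) 0 2 3 4 5) 63))
  (and (Nat.beq (sg (pe m) 1 2 3 4) 15) (Nat.beq (ta (pe m) 1 2 3 4 5) 63))))))

theorem hasK5_false {V : Type} {e : V → V → V → ℕ}
    (hK : ∀ a b c d x, ¬ (sg e a b c d = 15 ∧ ta e a b c d x = 63))
    (v : Fin 6 → V) (m : ℕ)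
    (h : ∀ i j k : Fin 6, e (v i) (v j) (v k) = pe m i.val j.val k.val) : hasK5 m = false := by
  have key : ∀ i j k l p : Fin 6,
      (Nat.beq (sg (pe m) i.val j.val k.val l.val) 15 &&
        Nat.beq (ta (pe m) i.val j.val k.val l.val p.val) 63) = false := by
    intro i j k l p
    have h1 : sg (pe m) i.val j.val k.val l.val = sg e (v i) (v j) (v k) (v l) := by
      simp only [sg, h]
    have h2 : ta (pe m) i.val j.val k.val l.val p.val = ta e (v i) (v j) (v k) (v l) (v p) := by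
      simp only [ta, h]
    rw [h1, h2]
    have h3 := hK (v i) (v j) (v k) (v l) (v p)
    rw [Bool.and_eq_false_iff]
    by_contra hc
    rw [not_or, Bool.not_eq_false, Bool.not_eq_false] at hc
    exact h3 ⟨Nat.eq_of_beq_eq_true hc.1, Nat.eq_of_beq_eq_true hc.2⟩
  have k0 := key 0 1 2 3 4
  have k1 := key 0 1 2 3 5
  have k2 := key 0 1 2 4 5
  have k3 := key 0 1 3 4 5
  have k4 := key 0 2 3 4 5
  have k5 := key 1 2 3 4 5
  unfold hasK5
  simp only [Bool.or_eq_false_iff]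
  exact ⟨k0, k1, k2, k3, k4, k5⟩

end Pool.Agent.R470.Tu
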