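import Pool.Agent.R470.Tu.Base
import Pool.Agent.H449R2.Fl.Bound2

/-! The flag bound with weights: a slack for six-tuples which do not span a bipartite pattern and a
weight for six-tuples which span a copy of a given bipartite pattern. -/

set_option autoImplicit false
set_option maxRecDepth 100000
open Finset

namespace Pool.Agent.R470.Tu
open Pool.Agent.H449R2.Fl

/-- masks of the four bipartite patterns on six vertices -/
def isBip (m : ℕ) : Bool :=
  or (Nat.beq m 0) (or (Nat.beq m 76983) (or (Nat.beq m 228863) (Nat.beq m 524286)))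

/-- a complete 3-graph on five vertices, or one of the bipartite patterns -/
def hb (m : ℕ) : Bool := or (hasK5 m) (isBip m)

/-- the tuple `v` spans a bipartite pattern -/
def Bip6 {V : Type} (e : V → V → V → ℕ) (v : Fin 6 → V) : Prop :=
  ∃ s : Fin 6 → Bool, ∀ i j k : Fin 6, i ≠ j → i ≠ k → j ≠ k →
    (e (v i) (v j) (v k) = 1 ↔ ¬ (s i = s j ∧ s i = s k))

/-- the tuple `v` spans a copy of the pattern with mask `m` -/
def CopyOf {V : Type} (e : V → V → V → ℕ) (m : ℕ) (v : Fin 6 → V) : Prop :=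
  ∃ σ : Equiv.Perm (Fin 6), ∀ i j k : Fin 6, e (v (σ i)) (v (σ j)) (v (σ k)) = pe m i.val j.val k.val

theorem isBip_cases {m : ℕ} (h : isBip m = true) : m = 0 ∨ m = 76983 ∨ m = 228863 ∨ m = 524286 := by
  unfold isBip at h
  rw [Bool.or_eq_true, Bool.or_eq_true, Bool.or_eq_true] at h
  rcases h with h | h | h | h
  · exact Or.inl (Nat.eq_of_beq_eq_true h)
  · exact Or.inr (Or.inl (Nat.eq_of_beq_eq_true h))
  · exact Or.inr (Or.inr (Or.inl (Nat.eq_of_beq_eq_true h)))
  · exact Or.inr (Or.inr (Or.inr (Nat.eq_of_beq_eq_true h)))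

theorem isBip_spec {m : ℕ} (h : isBip m = true) : ∃ s : Fin 6 → Bool, ∀ i j k : Fin 6, i ≠ j → i ≠ k →
    j ≠ k → (pe m i.val j.val k.val = 1 ↔ ¬ (s i = s j ∧ s i = s k)) := by
  rcases isBip_cases h with rfl | rfl | rfl | rfl
  · exact ⟨fun _ => false, by decide +kernel⟩
  · exact ⟨fun i => decide (i.val < 1), by decide +kernel⟩
  · exact ⟨fun i => decide (i.val < 2), by decide +kernel⟩
  · exact ⟨fun i => decide (i.val < 3), by decide +kernel⟩

theorem bip6_of_perm {V : Type} {e : V → V → V → ℕ} {v : Fin 6 → V} {m : ℕ} (hm : isBip m = true)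
    (σ : Equiv.Perm (Fin 6))
    (h : ∀ i j k : Fin 6, e (v (σ i)) (v (σ j)) (v (σ k)) = pe m i.val j.val k.val) : Bip6 e v := by
  obtain ⟨s, hs⟩ := isBip_spec hm
  refine ⟨fun i => s (σ.symm i), fun i j k hij hik hjk => ?_⟩
  have h1 := h (σ.symm i) (σ.symm j) (σ.symm k)
  simp only [Equiv.apply_symm_apply] at h1
  rw [h1]
  exact hs _ _ _ (fun h => hij (σ.symm.injective h)) (fun h => hik (σ.symm.injective h))
    (fun h => hjk (σ.symm.injective h))

theorem perm_list (σ : Equiv.Perm (Fin 6)) : [σ 0, σ 1, σ 2, σ 3, σ 4, σ 5].Perm [0, 1, 2, 3, 4, 5] := by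
  have h := Equiv.Perm.map_finRange_perm σ
  exact h

theorem list_perm {π : Fin 6 → Fin 6} (h : [π 0, π 1, π 2, π 3, π 4, π 5].Perm [0, 1, 2, 3, 4, 5]) :
    ∃ σ : Equiv.Perm (Fin 6), ∀ i, σ i = π i := by
  have hn : [π 0, π 1, π 2, π 3, π 4, π 5].Nodup := h.nodup_iff.mpr (by decide)
  have hm : [π 0, π 1, π 2, π 3, π 4, π 5] = (List.finRange 6).map π := rfl
  have hinj : Function.Injective π := by
    intro i j hij
    rw [hm] at hn
    exact List.inj_on_of_nodup_map hn (List.mem_finRange i) (List.mem_finRange j) hij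
  exact ⟨Equiv.ofBijective π ((Finite.injective_iff_bijective).mp hinj), fun i => rfl⟩

section
variable {V : Type} {e : V → V → V → ℕ}

open Classical in
theorem sel_wt (he : Pat e) (T : ℕ → ℕ → ℕ → ℕ) (q : ℕ → ℕ → ℕ) (B dl w mF : ℕ)
    (hchk : ∀ h < 2136, (hb (rep6 h) || Nat.ble (ev T q (rep6 h)) (Nat.sub B dl)) = true)
    (cB : and (Nat.ble (ev T q 0) B) (and (Nat.ble (ev T q 76983) B)
      (and (Nat.ble (ev T q 228863) B) (Nat.ble (ev T q 524286) B))) = true)
    (cF : Nat.ble (Nat.add (ev T q mF) w) B = true) (cD : Nat.ble dl B = true)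
    (hK : ∀ a b c d x, ¬ (sg e a b c d = 15 ∧ ta e a b c d x = 63)) (hF : isBip mF = true)
    (v : Fin 6 → V) :
    sel6 (phi e T q) (v 0) (v 1) (v 2) (v 3) (v 4) (v 5) + (if Bip6 e v then 0 else dl)
      + (if CopyOf e mF v then w else 0) ≤ B := by
  by_cases hc : CopyOf e mF v
  · have hb6 : Bip6 e v := by
      obtain ⟨σ, hσ⟩ := hc
      exact bip6_of_perm hF σ hσ
    rw [if_pos hc, if_pos hb6]
    obtain ⟨σ, hσ⟩ := hc
    have h1 := sel6_perm (phi e T q) v σ (perm_list σ)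
    have h2 := ev_eq e T q (fun i => v (σ i)) mF hσ
    have h3 := Nat.le_of_ble_eq_true cF
    rw [Nat.add_eq] at h3
    rw [← h1]
    have h4 : sel6 (phi e T q) (v (σ 0)) (v (σ 1)) (v (σ 2)) (v (σ 3)) (v (σ 4)) (v (σ 5)) =
        ev T q mF := h2
    rw [h4]
    omega
  · rw [if_neg hc]
    obtain ⟨π, hπ, h, hh, hm⟩ := iso_red (pat_comp he v)
    obtain ⟨σ, hσ⟩ := list_perm hπ
    have h1 := sel6_perm (phi e T q) v π hπ
    have h2 := ev_eq e T q (fun i => v (π i)) (rep6 h) hm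
    have h3 : hasK5 (rep6 h) = false := hasK5_false hK (fun i => v (π i)) (rep6 h) hm
    have h4 := hchk h hh
    have h5 : sel6 (phi e T q) (v 0) (v 1) (v 2) (v 3) (v 4) (v 5) = ev T q (rep6 h) := by
      rw [← h1]
      exact h2
    have hD := Nat.le_of_ble_eq_true cD
    rw [h5]
    by_cases hi : isBip (rep6 h) = true
    · have hb6 : Bip6 e v := by
        refine bip6_of_perm hi σ ?_
        intro i j k
        rw [hσ, hσ, hσ]
        exact hm i j k
      rw [if_pos hb6]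
      have h6 := isBip_cases hi
      generalize rep6 h = r at h6
      simp only [Nat.add_zero]
      rw [Bool.and_eq_true, Bool.and_eq_true, Bool.and_eq_true] at cB
      obtain ⟨c0, c1, c2, c3⟩ := cB
      rcases h6 with h6 | h6 | h6 | h6 <;> rw [h6]
      · exact Nat.le_of_ble_eq_true c0
      · exact Nat.le_of_ble_eq_true c1
      · exact Nat.le_of_ble_eq_true c2
      · exact Nat.le_of_ble_eq_true c3
    · have hi' : isBip (rep6 h) = false := Bool.eq_false_iff.mpr hi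
      have h6 : hb (rep6 h) = false := by
        unfold hb
        rw [h3, hi']
        rfl
      rw [h6, Bool.false_or] at h4
      have h7 := Nat.le_of_ble_eq_true h4
      rw [Nat.sub_eq] at h7
      split_ifs <;> omega

end

section
variable {V : Type} [Fintype V] (e : V → V → V → ℕ)

open Classical in
/-- the number of six-tuples which do not span a bipartite pattern -/
noncomputable def nonBip : ℕ :=
  ∑ a : V, ∑ b : V, ∑ c : V, ∑ d : V, ∑ x : V, ∑ y : V, (if Bip6 e ![a, b, c, d, x, y] then 0 else 1)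

open Classical in
/-- the number of six-tuples which span a copy of the pattern `m` -/
noncomputable def cops (m : ℕ) : ℕ :=
  ∑ a : V, ∑ b : V, ∑ c : V, ∑ d : V, ∑ x : V, ∑ y : V, (if CopyOf e m ![a, b, c, d, x, y] then 1 else 0)

end

section
variable {V : Type} [Fintype V] {e : V → V → V → ℕ}

theorem wt_bound (he : Pat e) (T : ℕ → ℕ → ℕ → ℕ) (q : ℕ → ℕ → ℕ) (B dl w mF : ℕ)
    (hchk : ∀ h < 2136, (hb (rep6 h) || Nat.ble (ev T q (rep6 h)) (Nat.sub B dl)) = true)
    (cB : and (Nat.ble (ev T q 0) B) (and (Nat.ble (ev T q 76983) B)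
      (and (Nat.ble (ev T q 228863) B) (Nat.ble (ev T q 524286) B))) = true)
    (cF : Nat.ble (Nat.add (ev T q mF) w) B = true) (cD : Nat.ble dl B = true)
    (hK : ∀ a b c d x, ¬ (sg e a b c d = 15 ∧ ta e a b c d x = 63))
    (K : ℕ) (W : ℕ → ℕ → ℕ)
    (P : ℕ → ℕ → ℕ → ℤ) (K2 : ℕ) (W2 : ℕ → ℕ) (G : ℕ → ℕ → ℤ) (off off2 : ℤ)
    (ob : ℕ → ℕ → ℕ → ℤ)
    (hT : ∀ s < 16, ∀ i < 64, ∀ j < 64, (T s i j : ℤ) =
      off + ∑ k ∈ range K, (W s k : ℤ) * (P s i k * P s j k) + ob s i j)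
    (hq : ∀ s < 16, ∀ t < 16, (q s t : ℤ) =
      off2 + ∑ k ∈ range K2, (W2 k : ℤ) * (G s k * G t k)) (hF : isBip mF = true) :
    720 * ∑ a, ∑ b, ∑ c, ∑ d, ∑ x, ∑ y, ob (sg e a b c d) (ta e a b c d x) (ta e a b c d y)
      + (dl : ℤ) * (nonBip e : ℤ) + (w : ℤ) * (cops e mF : ℤ) ≤
      ((B : ℤ) - 720 * (off + off2)) * (Fintype.card V : ℤ) ^ 6 := by
  classical
  have h1 := flag_lower2 he T q K W P K2 W2 G off off2 ob hT hq
  have h2 : ∑ a : V, ∑ b : V, ∑ c : V, ∑ d : V, ∑ x : V, ∑ y : V,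
      (sel6 (phi e T q) a b c d x y + (if Bip6 e ![a, b, c, d, x, y] then 0 else dl)
        + (if CopyOf e mF ![a, b, c, d, x, y] then w else 0)) ≤ B * Fintype.card V ^ 6 := by
    have h3 : ∑ a : V, ∑ b : V, ∑ c : V, ∑ d : V, ∑ x : V, ∑ y : V,
        (sel6 (phi e T q) a b c d x y + (if Bip6 e ![a, b, c, d, x, y] then 0 else dl)
        + (if CopyOf e mF ![a, b, c, d, x, y] then w else 0)) ≤
        ∑ a : V, ∑ b : V, ∑ c : V, ∑ d : V, ∑ x : V, ∑ y : V, B :=
      sum_le_sum fun a _ => sum_le_sum fun b _ => sum_le_sum fun c _ => sum_le_sum fun d _ =>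
        sum_le_sum fun x _ => sum_le_sum fun y _ => by
          exact sel_wt he T q B dl w mF hchk cB cF cD hK hF ![a, b, c, d, x, y]
    refine h3.trans (le_of_eq ?_)
    simp only [sum_const, card_univ, smul_eq_mul]
    ring
  simp only [sum_add_distrib] at h2
  rw [tot6] at h2
  have e1 : ∑ a : V, ∑ b : V, ∑ c : V, ∑ d : V, ∑ x : V, ∑ y : V,
      (if Bip6 e ![a, b, c, d, x, y] then 0 else dl) = dl * nonBip e := by
    unfold nonBip
    simp only [mul_sum, mul_ite, mul_zero, mul_one]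
  have e2 : ∑ a : V, ∑ b : V, ∑ c : V, ∑ d : V, ∑ x : V, ∑ y : V,
      (if CopyOf e mF ![a, b, c, d, x, y] then w else 0) = w * cops e mF := by
    unfold cops
    simp only [mul_sum, mul_ite, mul_zero, mul_one]
  rw [e1, e2] at h2
  have h4 : (720 : ℤ) * ((∑ a, ∑ b, ∑ c, ∑ d, ∑ x, ∑ y, phi e T q a b c d x y : ℕ) : ℤ)
      + (dl : ℤ) * (nonBip e : ℤ) + (w : ℤ) * (cops e mF : ℤ) ≤
      (B : ℤ) * (Fintype.card V : ℤ) ^ 6 := by exact_mod_cast h2
  linarith

end

end Pool.Agent.R470.Tu
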